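import Pool.Agent.Lib.MP_1a91b9_nuW.ZD.Low
import Pool.Agent.Lib.MP_1a91b9_nuW.QW.Defs
import Pool.Agent.Lib.MP_1a91b9_nuX.QW.GluA

/-!
# The unit property normalised by the different, from `F = N F₀` to `N`, with a character
-/

set_option autoImplicit false

namespace Pool.Agent.Lib.MP_1a91b9_nuW.ZD

open NumberField IsDedekindDomain WeierstrassCurve Module Pool.Agent.Lib.MP_1a91b9_nuT
open Pool.Agent.Lib.MP_1a91b9_nuX
open Pool.Agent.Lib.MP_1a91b9_nuX.QW (thC unC span_up_ne span_up_cop span_le_gB)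
open Pool.Agent.Lib.MP_1a91b9_nuW.QW (UnitD)
open Pool.Agent.Lib.MP_1a91b9_nuX.DB Pool.Agent.Lib.MP_1a91b9_nuX.DX
open Pool.Agent.Lib.MP_1a91b9_nuG (up)
open Pool.Agent.Lib.MP_1a91b9_nuX.TG Pool.Agent.Lib.MP_1a91b9_nuX.TC
open Pool.Agent.Lib.MP_1a91b9_nuX.AN

universe u

variable [CD] [HC]

section
variable {μ : 𝓞 K} {N F L : Type u} [Field N] [NumberField N] [Algebra K N]
  [Field F] [NumberField F] [Algebra K F] [Field L] [NumberField L] [Algebra K L]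
  [Algebra N F] [Algebra N L] [Algebra F L] [IsScalarTower K N F] [IsScalarTower K N L]
  [IsScalarTower K F L] [IsScalarTower N F L] [IsGalois N L] [IsGalois N F] [DecidableEq L]

/-- descent of the unit property with the character `θ` -/
theorem unitD_sc {T : Pt L} (hT : AbT μ N T) {g : 𝓞 K} (hg0 : g ≠ 0) (hg : gB μ ∣ g)
    (θ : Gal(F/N) →* (𝓞 K)ˣ) {ℓ : ℕ} (hℓ : ℓ.Prime) (hD : ¬ (ℓ : ℤ) ∣ CD.bad)
    (hV : VAL.{u} ℓ) (hgℓ : IsCoprime g (ℓ : 𝓞 K)) (h3 : WOk ℓ F)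
    (ha : ∀ w : HeightOneSpectrum (𝓞 F), up g F ∈ w.asIdeal → up HC.f F ∉ w.asIdeal →
      IsCoprime (psi F w.asIdeal - 1) (ℓ : 𝓞 K))
    (h : UnitZ ℓ F) :
    UnitD ℓ N (cT N T (Ideal.span {up g N})
      (thC (θ.comp (AlgEquiv.restrictNormalHom F : Gal(L/N) →* Gal(F/N))))) := by
  have hm0 := span_up_ne hg0 N
  have hm := span_le_gB hg N
  obtain ⟨θL, hθL⟩ : ∃ θL : Gal(L/N) →* ℂˣ,
      θL = thC (θ.comp (AlgEquiv.restrictNormalHom F : Gal(L/N) →* Gal(F/N))) := ⟨_, rfl⟩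
  rw [← hθL]
  have htriv : ∀ σ : Gal(L/F), θL (toFH N F L σ) = 1 := by
    intro σ
    have h1 : rs F (toFH N F L σ) = 1 := rs_toF σ
    have h2 : θL (toFH N F L σ) = unC (θ (rs F (toFH N F L σ))) := by
      rw [hθL]
      rfl
    rw [h2, h1, map_one, map_one]
  have hmq := span_up_cop hgℓ N
  refine unitZT_abT μ hℓ hD hV _ N F L T hT _ hm0 hm θL hmq rfl h3 ?_
  rw [cT_triv htriv]
  have e : (Ideal.span {up g N}).map (algebraMap (𝓞 N) (𝓞 F)) = Ideal.span {up g F} := by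
    rw [Ideal.map_span, Set.image_singleton]
    have h1 : algebraMap (𝓞 N) (𝓞 F) (up g N) = up g F :=
      MP_1a91b9_nuT3.S8.algebraMap_tower (F := N) (F' := F) g
    rw [h1]
  rw [e]
  refine unitZT_indC (span_up_ne hg0 F) hℓ (span_up_cop hgℓ F) (fun w hw hf => ha w ?_ hf) h
  exact (Ideal.span_singleton_le_iff_mem _).1 hw

end

end Pool.Agent.Lib.MP_1a91b9_nuW.ZD
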