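import Pool.Agent.Lib.MP_1a91b9_nuW.ZD.Step
import Pool.Agent.Lib.MP_1a91b9_nuX.TC.Low

/-!
# Descent with a character in the extensions generated by torsion points: the values normalised by the discriminant
-/

set_option autoImplicit false

namespace Pool.Agent.Lib.MP_1a91b9_nuW.ZD

variable [Pool.Agent.Lib.MP_1a91b9_nuT.CD]

open NumberField IsDedekindDomain WeierstrassCurve Module Pool.Agent.Lib.MP_1a91b9_nuT
open Pool.Agent.Lib.MP_1a91b9_nuX
open Pool.Agent.Lib.MP_1a91b9_nuX.DB Pool.Agent.Lib.MP_1a91b9_nuX.DX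
open Pool.Agent.Lib.MP_1a91b9_nuX.TG
open Pool.Agent.Lib.MP_1a91b9_nuX.AN
open Pool.Agent.Lib.MP_1a91b9_nuX.TC
open Pool.Agent.Lib.MP_1a91b9_nuT.TG (not_ram_down)

universe u

variable [HC]

/-- the condition on a field for the integrality of the normalised values -/
def WOk (ℓ : ℕ) (M : Type u) [Field M] [NumberField M] [Algebra K M] : Prop :=
  ¬ ℓ ∣ 2 ^ finrank K M - 1 ∧ ((∃ p : 𝓞 K, Spl p ℓ) ∨
    ∀ q : HeightOneSpectrum (𝓞 K), (ℓ : 𝓞 K) ∈ q.asIdeal → ¬ MP_1a91b9_nuT3.Ram M q)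

theorem WOk.down {ℓ : ℕ} {N M : Type u} [Field N] [NumberField N] [Algebra K N] [Field M]
    [NumberField M] [Algebra K M] [Algebra N M] [IsScalarTower K N M] (h : WOk ℓ M) :
    WOk ℓ N :=
  ⟨e2_down h.1, h.2.imp_right fun h2 => not_ram_down (N := N) h2⟩

/-- VAL for all the fields -/
def VAL (ℓ : ℕ) : Prop :=
  ∀ (M : Type u) [Field M] [NumberField M] [Algebra K M], ¬ ℓ ∣ 2 ^ finrank K M - 1 →
    ∀ p : 𝓞 K, Spl p ℓ → ∃ ε : 𝓞 K, ValW p ℓ ε M

theorem spl_conj {p : 𝓞 K} {ℓ : ℕ} (h : Spl p ℓ) : Spl (cK p) ℓ := by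
  have e : cK (cK p) = p := cj_cj p
  refine ⟨h.prime, h.odd, ?_, ?_⟩
  · rw [e, mul_comm]
    exact h.mul
  · rw [e]
    exact h.cop.symm

theorem valZ_ok {ℓ : ℕ} (hℓ : ℓ.Prime) (hD : ¬ (ℓ : ℤ) ∣ CD.bad) (hV : VAL.{u} ℓ) {M : Type u}
    [Field M] [NumberField M] [Algebra K M] (h : WOk ℓ M) : ValZ ℓ M := by
  rcases h.2 with ⟨p, hp⟩ | hu
  · obtain ⟨ε, h1⟩ := hV M h.1 p hp
    obtain ⟨ε', h2⟩ := hV M h.1 (cK p) (spl_conj hp)
    exact valZ_of_valW hℓ hp.mul h1 h2
  · exact valZ_of_value hℓ.ne_zero hu (valueProp_unr hℓ hD M h.1 hu)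

section
variable {μ : 𝓞 K} {N N₁ L : Type u} [Field N] [NumberField N] [Algebra K N] [Field N₁]
  [NumberField N₁] [Algebra K N₁] [Field L] [NumberField L] [Algebra K L] [Algebra N N₁]
  [Algebra N L] [Algebra N₁ L] [IsScalarTower K N N₁] [IsScalarTower K N L]
  [IsScalarTower K N₁ L] [IsScalarTower N N₁ L] [DecidableEq L]
  {T : Pt L} [IsGalois N N₁] [IsGalois N L]

omit [DecidableEq L] [IsGalois N N₁] in
theorem ram_step [DecidableEq L] (hT : AbT μ N T) {m : Ideal (𝓞 N)}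
    (hm : m ≤ Ideal.span {MP_1a91b9_nuG.up (gB μ) N}) {ℓ : ℕ}
    (hmq : IsCoprime m (Ideal.span {(ℓ : 𝓞 N)})) (v : HeightOneSpectrum (𝓞 N))
    (hv : (ℓ : 𝓞 N) ∈ v.asIdeal) : ¬ MP_1a91b9_nuG.Ram N₁ v := by
  intro hr
  have h1 : m ≤ v.asIdeal := by
    refine hm.trans ?_
    rw [Ideal.span_singleton_le_iff_mem]
    by_contra h1
    exact hT.not_ram v h1 (MP_1a91b9_nuT3.S8.ram_up v hr)
  obtain ⟨a, ha, b, hb, hab⟩ := Ideal.isCoprime_iff_exists.1 hmq
  apply v.isPrime.ne_top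
  rw [Ideal.eq_top_iff_one, ← hab]
  exact v.asIdeal.add_mem (h1 ha) ((Ideal.span_singleton_le_iff_mem _).2 hv hb)

/-- descent of the unit property with a character in a step of prime degree -/
theorem unitZT_step (hT : AbT μ N T) {m : Ideal (𝓞 N)} (hm0 : m ≠ 0)
    (hm : m ≤ Ideal.span {MP_1a91b9_nuG.up (gB μ) N}) {p : ℕ} (hp : p.Prime)
    (hd : finrank N N₁ = p) (θ : Gal(L/N) →* ℂˣ) {ℓ : ℕ} (hℓ : ℓ.Prime)
    (hD : ¬ (ℓ : ℤ) ∣ CD.bad) (hV : VAL.{u} ℓ) (hmq : IsCoprime m (Ideal.span {(ℓ : 𝓞 N)}))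
    (h3 : WOk ℓ N)
    (h : UnitZT ℓ N₁ (cT N₁ T (m.map (algebraMap (𝓞 N) (𝓞 N₁))) (θ.comp (toFH N N₁ L)))) :
    UnitZT ℓ N (cT N T m θ) := by
  have hGM : IsGalois N₁ L := IsGalois.tower_top_of_isGalois N N₁ L
  obtain ⟨hfp, x, hx⟩ := exists_ray (N₁ := N₁) hT hm hp hd
  exact unitZT_desc hd hm0 (ne_one_of_le hm) (le_f_of_le hm) hx hℓ.ne_zero hmq
    (valZ_ok hℓ hD hV h3) (ram_step hT hm hmq)
    (rc_cT θ hT hm0 (ne_one_of_le hm) hm)
    (rc_cT _ hT.mid (map_ne_zero' hm0) (ne_one_of_le (map_le_up hm)) (map_le_up hm))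
    (cT_up hT hm θ) h

end

/-- **Descent of the unit property with a character** in the extensions generated by torsion points. -/
theorem unitZT_abT (μ : 𝓞 K) {ℓ : ℕ} (hℓ : ℓ.Prime) (hD : ¬ (ℓ : ℤ) ∣ CD.bad)
    (hV : VAL.{u} ℓ) (d : ℕ) :
    ∀ (N F L : Type u) [Field N] [NumberField N] [Algebra K N]
    [Field F] [NumberField F] [Algebra K F] [Field L] [NumberField L] [Algebra K L]
    [Algebra N F] [Algebra N L] [Algebra F L] [IsScalarTower K N F] [IsScalarTower K N L]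
    [IsScalarTower K F L] [IsScalarTower N F L] [DecidableEq L] [IsGalois N L] (T : Pt L)
    (_ : AbT μ N T) (m : Ideal (𝓞 N)) (_ : m ≠ 0)
    (_ : m ≤ Ideal.span {MP_1a91b9_nuG.up (gB μ) N}) (θ : Gal(L/N) →* ℂˣ)
    (_ : IsCoprime m (Ideal.span {(ℓ : 𝓞 N)})), finrank N F = d →
    WOk ℓ F →
    UnitZT ℓ F (cT F T (m.map (algebraMap (𝓞 N) (𝓞 F))) (θ.comp (toFH N F L))) →
    UnitZT ℓ N (cT N T m θ) := by
  induction d using Nat.strong_induction_on with
  | _ d ih =>
    intro N F L _ _ _ _ _ _ _ _ _ _ _ _ _ _ _ _ _ _ T hT m hm0 hm θ hmq hd h3 hF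
    have hfd : FiniteDimensional N L := Module.Finite.of_restrictScalars_finite ℚ N L
    have hfd' : FiniteDimensional N F := Module.Finite.of_restrictScalars_finite ℚ N F
    have hG : IsGalois N F := exists_mid (F := F) hT
    have hGF : IsGalois F L := IsGalois.tower_top_of_isGalois N F L
    by_cases hd1 : d = 1
    · exact unitZT_one (by rw [hd, hd1]) (rc_cT θ hT hm0 (ne_one_of_le hm) hm)
        (rc_cT _ hT.mid (map_ne_zero' hm0) (ne_one_of_le (map_le_up hm)) (map_le_up hm))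
        (cT_up hT hm θ) hℓ.ne_zero (ram_step hT hm hmq) hF
    · obtain ⟨p, hp, hpd⟩ := Nat.exists_prime_and_dvd hd1
      have hfp : Fact p.Prime := ⟨hp⟩
      have hcardG : Nat.card Gal(F/N) = d := by rw [IsGalois.card_aut_eq_finrank, hd]
      obtain ⟨σ, hσ⟩ := exists_prime_orderOf_dvd_card' (G := Gal(F/N)) p (by rw [hcardG]; exact hpd)
      obtain ⟨M, hM⟩ : ∃ M : IntermediateField N F,
          M = IntermediateField.fixedField (Subgroup.zpowers σ) := ⟨_, rfl⟩
      have hpM : finrank M F = p := by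
        rw [hM, IntermediateField.finrank_fixedField_eq_card, Nat.card_zpowers, hσ]
      have hmul : finrank N M * p = d := by
        rw [← hpM, Module.finrank_mul_finrank, hd]
      have hpos : 0 < finrank N M := finrank_pos
      have hlt : finrank N M < d := by
        rw [← hmul]
        exact lt_mul_of_one_lt_right hpos hp.one_lt
      have t1 : IsScalarTower M F L := inferInstance
      have t2 : IsScalarTower N M L := IsScalarTower.of_algebraMap_eq fun x => by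
        rw [IsScalarTower.algebraMap_apply N F L]
        rfl
      have t3 : IsScalarTower K M F := IsScalarTower.of_algebraMap_eq fun x => rfl
      have t4 : IsScalarTower K M L := IsScalarTower.of_algebraMap_eq fun x => by
        rw [IsScalarTower.algebraMap_apply K F L]
        rfl
      have t5 : IsScalarTower K N M := IsScalarTower.of_algebraMap_eq fun x => by
        apply (algebraMap M F).injective
        rw [← IsScalarTower.algebraMap_apply K M F, ← IsScalarTower.algebraMap_apply N M F,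
          ← IsScalarTower.algebraMap_apply K N F]
      have g1 : IsGalois M F := IsGalois.tower_top_of_isGalois N M F
      have g2 : IsGalois M L := IsGalois.tower_top_of_isGalois N M L
      have hT' : AbT μ M T := hT.mid
      have h3M : WOk ℓ M := h3.down
      have e1 : (m.map (algebraMap (𝓞 N) (𝓞 M))).map (algebraMap (𝓞 M) (𝓞 F)) =
          m.map (algebraMap (𝓞 N) (𝓞 F)) := (MP_1a91b9_nuT3.S8.map_tower m).symm
      have e2 : (θ.comp (toFH N M L)).comp (toFH M F L) = θ.comp (toFH N F L) := rfl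
      have hmqM : IsCoprime (m.map (algebraMap (𝓞 N) (𝓞 M))) (Ideal.span {(ℓ : 𝓞 M)}) := by
        have h5 := hmq.map (Ideal.mapHom (algebraMap (𝓞 N) (𝓞 M)))
        rw [Ideal.mapHom_apply, Ideal.mapHom_apply, Ideal.map_span, Set.image_singleton,
          map_natCast] at h5
        exact h5
      have hMg : UnitZT ℓ M (cT M T (m.map (algebraMap (𝓞 N) (𝓞 M)))
          (θ.comp (toFH N M L))) := by
        refine unitZT_step (N₁ := F) hT' (map_ne_zero' hm0) (map_le_up hm) hp hpM _ hℓ hD hV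
          hmqM h3M ?_
        rw [e1, e2]
        exact hF
      exact ih (finrank N M) hlt N M L T hT m hm0 hm θ hmq rfl h3M hMg

end Pool.Agent.Lib.MP_1a91b9_nuW.ZD
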