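import Pool.Agent.Lib.MP_1a91b9_nuW.ZD.Diff
import Pool.Agent.Lib.MP_1a91b9_nuW.Defs
import Pool.Agent.Lib.MP_1a91b9_nuX.TC.Defs

/-!
# The values normalised by the discriminant

`UnitZT ℓ F c`: the series of `ψbar_F c` continues, and its value at `1`, divided by `Om ^ [F : K]` and multiplied by the
square root of the relative discriminant of `F / K`, is a unit above `ℓ`. `ValZ`: the values of the partial
series are integral in this sense.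
-/

set_option autoImplicit false

namespace Pool.Agent.Lib.MP_1a91b9_nuW.ZD

variable [Pool.Agent.Lib.MP_1a91b9_nuT.CD]

open NumberField IsDedekindDomain Module Pool.Agent.Lib.MP_1a91b9_nt Pool.Agent.Lib.MP_1a91b9_nuT
open Pool.Agent.Lib.MP_1a91b9_nuT.S4 (Over Lf hasProd_Lf hasProd_over indC indC_of indC_of_not
  indC_one indC_mul norm_indC_le indC_ray entire_eq le_iff_not_coprime differentiable_euler RayEq
  val_integral Nm IsRep exists_isRep)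
open Pool.Agent.Lib.MP_1a91b9_nuG (up ValueProp)
open Pool.Agent.Lib.MP_1a91b9_nuX
open Pool.Agent.Lib.MP_1a91b9_nuX.AN
open Pool.Agent.Lib.MP_1a91b9_nuX.TC (RC UnitT)

universe u

/-- `d` generates the norm of the different of `F / K` -/
def Dg (F : Type u) [Field F] [NumberField F] [Algebra K F] (d : 𝓞 K) : Prop :=
  Ideal.relNorm (𝓞 K) (differentIdeal (𝓞 K) (𝓞 F)) = Ideal.span {d}

theorem exists_dg (F : Type u) [Field F] [NumberField F] [Algebra K F] : ∃ d : 𝓞 K, Dg F d :=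
  (IsPrincipalIdealRing.principal
    (Ideal.relNorm (𝓞 K) (differentIdeal (𝓞 K) (𝓞 F)))).principal

theorem Dg.ne {F : Type u} [Field F] [NumberField F] [Algebra K F] {d : 𝓞 K} (h : Dg F d) :
    d ≠ 0 := by
  rintro rfl
  rw [Dg, Ideal.span_singleton_eq_bot.2 rfl, Ideal.relNorm_eq_bot_iff] at h
  exact differentIdeal_ne_bot h

/-- the normalised value is a unit above `ℓ` -/
def NV (ℓ : ℕ) (F : Type u) [Field F] [NumberField F] [Algebra K F] (z : ℂ) : Prop :=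
  ∀ A : ValuationSubring ℂ, (ℓ : ℂ)⁻¹ ∉ A → ∀ d : 𝓞 K, Dg F d →
    A.valuation (z / Om ^ finrank K F) ^ 2 * A.valuation (embK (d : K)) = 1

/-- the normalised value is integral above `ℓ` -/
def NI (ℓ : ℕ) (F : Type u) [Field F] [NumberField F] [Algebra K F] (z : ℂ) : Prop :=
  ∀ A : ValuationSubring ℂ, (ℓ : ℂ)⁻¹ ∉ A → ∀ d : 𝓞 K, Dg F d →
    A.valuation (z / Om ^ finrank K F) ^ 2 * A.valuation (embK (d : K)) ≤ 1

/-- the values of the partial series -/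
def ValZ [HC] (ℓ : ℕ) (F : Type u) [Field F] [NumberField F] [Algebra K F] : Prop :=
  ∀ (m b : Ideal (𝓞 F)) (t : 𝓞 F), m ≠ 0 → m ≤ Ideal.span {up HC.f F} →
    IsCoprime m (Ideal.span {(ℓ : 𝓞 F)}) → b ≠ 0 → IsCoprime b (Ideal.span {(ℓ : 𝓞 F)}) →
    IsCoprime b m → t ∈ b → t ∉ m * b →
    ∃ A : ℂ → ℂ, Differentiable ℂ A ∧
      (∀ R, IsRep m b t R → ∀ s : ℂ, 2 < s.re →
        HasSum (fun r : R => (starRingEnd ℂ) (Nm ((r : 𝓞 F) : F)) *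
          ((‖Nm ((r : 𝓞 F) : F)‖ : ℝ) : ℂ) ^ (-2 * s)) (A s)) ∧ NI ℓ F (A 1)

/-- The series of `ψbar_F` continues and its normalised value at `1` is a unit above `ℓ`. -/
def UnitZ [HC] (ℓ : ℕ) (F : Type u) [Field F] [NumberField F] [Algebra K F] : Prop :=
  ∃ L : ℂ → ℂ, Differentiable ℂ L ∧ (∀ s : ℂ, 2 < s.re → L s = Lf (psbC F) s) ∧ NV ℓ F (L 1)

/-- The series of `ψbar_F c` continues and its normalised value at `1` is a unit above `ℓ`. -/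
def UnitZT [HC] (ℓ : ℕ) (F : Type u) [Field F] [NumberField F] [Algebra K F]
    (c : Ideal (𝓞 F) → ℂ) : Prop :=
  ∃ L : ℂ → ℂ, Differentiable ℂ L ∧
    (∀ s : ℂ, 2 < s.re → L s = Lf (fun I => psbC F I * c I) s) ∧ NV ℓ F (L 1)

/-- the places above `ℓ = p cj p` -/
theorem plP_cases {p : 𝓞 K} {ℓ : ℕ} (hp : p * cK p = (ℓ : 𝓞 K)) {A : ValuationSubring ℂ}
    (hA : (ℓ : ℂ)⁻¹ ∉ A) : PlP p A ∨ PlP (cK p) A := by
  by_contra h
  rw [not_or, PlP, PlP, not_not, not_not] at h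
  apply hA
  have h1 : embK (p : K) * embK ((cK p : 𝓞 K) : K) = (ℓ : ℂ) := by
    have h2 := congrArg (fun z : 𝓞 K => embK (algebraMap (𝓞 K) K z)) hp
    simp only [map_mul, map_natCast] at h2
    exact h2
  rw [← h1, mul_inv]
  exact A.mul_mem _ _ h.1 h.2

theorem plP_ell {p : 𝓞 K} {ℓ : ℕ} (hℓ : ℓ ≠ 0) (hp : p ∣ (ℓ : 𝓞 K)) {A : ValuationSubring ℂ}
    (hA : PlP p A) : (ℓ : ℂ)⁻¹ ∉ A := by
  obtain ⟨q, hq⟩ := hp
  intro h
  apply hA
  have h1 : embK (p : K) * embK (q : K) = (ℓ : ℂ) := by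
    have h2 := congrArg (fun z : 𝓞 K => embK (algebraMap (𝓞 K) K z)) hq
    simp only [map_mul, map_natCast] at h2
    exact h2.symm
  have hl : (ℓ : ℂ) ≠ 0 := Nat.cast_ne_zero.2 hℓ
  have hp0 : embK (p : K) ≠ 0 := by
    intro h0
    rw [h0, zero_mul] at h1
    exact hl h1.symm
  have hq0 : embK (q : K) ≠ 0 := by
    intro h0
    rw [h0, mul_zero] at h1
    exact hl h1.symm
  have h2 : (embK (p : K))⁻¹ = embK (q : K) * (ℓ : ℂ)⁻¹ := by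
    rw [← h1, mul_inv, mul_comm (embK (p : K))⁻¹, ← mul_assoc, mul_inv_cancel₀ hq0, one_mul]
  rw [h2]
  exact A.mul_mem _ _ ((A.valuation_le_one_iff _).1 (val_embK_le A q)) h

section
variable [HC] {F : Type u} [Field F] [NumberField F] [Algebra K F] {ℓ : ℕ}

/-- unramified above `ℓ`: the discriminant is a unit -/
theorem val_dg {F : Type u} [Field F] [NumberField F] [Algebra K F] {ℓ : ℕ} (hℓ : ℓ ≠ 0)
    (hu : ∀ q : HeightOneSpectrum (𝓞 K), (ℓ : 𝓞 K) ∈ q.asIdeal →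
      ¬ Pool.Agent.Lib.MP_1a91b9_nuG.Ram F q) {A : ValuationSubring ℂ} (hA : (ℓ : ℂ)⁻¹ ∉ A)
    {d : 𝓞 K} (hd : Dg F d) : A.valuation (embK (d : K)) = 1 := by
  have h1 : IsCoprime (differentIdeal (𝓞 K) (𝓞 F)) (Ideal.span {(ℓ : 𝓞 F)}) :=
    diff_cop (N := K) (M := F) hℓ hu
  have h2 : IsCoprime d (ℓ : 𝓞 K) := norm_cop h1 hd
  exact val_of_cop hA h2

theorem unitZ_of_unit (hℓ : ℓ ≠ 0)
    (hu : ∀ q : HeightOneSpectrum (𝓞 K), (ℓ : 𝓞 K) ∈ q.asIdeal →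
      ¬ Pool.Agent.Lib.MP_1a91b9_nuG.Ram F q) (h : UnitProp ℓ Om F) : UnitZ ℓ F := by
  obtain ⟨L, hL, hL1, hv⟩ := h
  refine ⟨L, hL, hL1, fun A hA d hd => ?_⟩
  rw [hv A hA, val_dg hℓ hu hA hd, one_pow, one_mul]

theorem valZ_of_value (hℓ : ℓ ≠ 0)
    (hu : ∀ q : HeightOneSpectrum (𝓞 K), (ℓ : 𝓞 K) ∈ q.asIdeal →
      ¬ Pool.Agent.Lib.MP_1a91b9_nuG.Ram F q) (h : ValueProp HC.f ℓ Om F) : ValZ ℓ F := by
  intro m b t h1 h2 h3 h4 h5 h6 h7 h8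
  obtain ⟨A, hA, hA1, hA2⟩ := h m b t h1 h2 h3 h4 h5 h6 h7 h8
  refine ⟨A, hA, hA1, fun W hW d hd => ?_⟩
  rw [val_dg hℓ hu hW hd, mul_one]
  exact pow_le_one' (hA2 W hW) 2

/-- the two halves of the unit property at a prime number which splits -/
theorem unitZ_of_unitW {p : 𝓞 K} (hp : p * cK p = (ℓ : 𝓞 K)) (h1 : UnitW p F)
    (h2 : UnitW (cK p) F) : UnitZ ℓ F := by
  obtain ⟨L, hL, hL1, hv⟩ := h1
  obtain ⟨L', hL', hL1', hv'⟩ := h2
  have e : L' = L := entire_eq hL' hL fun s hs => by rw [hL1' s hs, hL1 s hs]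
  refine ⟨L, hL, hL1, fun A hA d hd => ?_⟩
  rcases plP_cases hp hA with h | h
  · exact hv A h d hd
  · rw [← e]
    exact hv' A h d hd

theorem unitW_of_unitZ {p : 𝓞 K} (hℓ : ℓ ≠ 0) (hp : p ∣ (ℓ : 𝓞 K)) (h : UnitZ ℓ F) :
    UnitW p F := by
  obtain ⟨L, hL, hL1, hv⟩ := h
  exact ⟨L, hL, hL1, fun A hA d hd => hv A (plP_ell hℓ hp hA) d hd⟩

/-- the constant weight -/
theorem goodW_one (p ε : 𝓞 K) (m b : Ideal (𝓞 F)) (t : 𝓞 F) (A : ValuationSubring ℂ) :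
    GoodW p 0 ε m b t A (fun _ => 1) := by
  refine ⟨fun _ _ _ _ => rfl, fun _ _ _ _ _ => rfl, PUnit, inferInstance, fun _ => 0,
    fun _ _ => 1, fun _ z _ => ⟨0, ?_⟩, fun _ _ => A.one_mem, fun _ _ _ _ => rfl,
    fun z _ => ?_⟩
  · rw [zero_mul, map_zero, mul_zero]
    exact (map_zero (algebraMap (𝓞 K) K)).symm
  · have e : eF (0 : F) (z : F) = 1 := by
      rw [eF, zero_mul, map_zero, map_zero, exK]
      simp
    simp [e]

theorem valZ_of_valW {p : 𝓞 K} (hℓ : ℓ.Prime) (hp : p * cK p = (ℓ : 𝓞 K)) {ε ε' : 𝓞 K}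
    (h1 : ValW p ℓ ε F) (h2 : ValW (cK p) ℓ ε' F) : ValZ ℓ F := by
  intro m b t a1 a2 a3 a4 a5 a6 a7 a8
  obtain ⟨R₀, hR₀⟩ := exists_isRep m b t
  have key : ∀ A : ValuationSubring ℂ, (ℓ : ℂ)⁻¹ ∉ A → ∃ g : ℂ → ℂ, Differentiable ℂ g ∧
      (∀ R : Set (𝓞 F), IsRep m b t R → ∀ s : ℂ, 2 < s.re →
        HasSum (fun r : R => (starRingEnd ℂ) (Nm ((r : 𝓞 F) : F)) *
          ((‖Nm ((r : 𝓞 F) : F)‖ : ℝ) : ℂ) ^ (-2 * s)) (g s)) ∧
      ∀ d : 𝓞 K, Dg F d →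
        A.valuation (g 1 / Om ^ finrank K F) ^ 2 * A.valuation (embK (d : K)) ≤ 1 := by
    intro A hA
    rcases plP_cases hp hA with h | h
    · obtain ⟨g, hg, hg1, hg2⟩ := h1 m b t a1 a2 a3 a4 a5 a7 a8 0 A _ h
        (goodW_one p ε m b t A)
      refine ⟨g, hg, fun R hR s hs => ?_, hg2⟩
      have := hg1 R hR s hs
      simpa only [one_mul] using this
    · obtain ⟨g, hg, hg1, hg2⟩ := h2 m b t a1 a2 a3 a4 a5 a7 a8 0 A _ h
        (goodW_one (cK p) ε' m b t A)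
      refine ⟨g, hg, fun R hR s hs => ?_, hg2⟩
      have := hg1 R hR s hs
      simpa only [one_mul] using this
  obtain ⟨A₀, hA₀⟩ := Ell.d3_exists hℓ
  obtain ⟨g, hg, hg1, -⟩ := key A₀ hA₀
  refine ⟨g, hg, hg1, fun A hA d hd => ?_⟩
  obtain ⟨g', hg', hg1', hg2'⟩ := key A hA
  have e : g = g' := entire_eq hg hg' fun s hs =>
    (hg1 R₀ hR₀ s hs).unique (hg1' R₀ hR₀ s hs)
  rw [e]
  exact hg2' d hd

end

end Pool.Agent.Lib.MP_1a91b9_nuW.ZD
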