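import Pool.Agent.Lib.MP_1a91b9_nuX.TG.Unr
import Pool.Agent.Lib.MP_1a91b9_nuT.PL.Val

/-!
# The differents in extensions which are unramified above `ℓ`
-/

set_option autoImplicit false

namespace Pool.Agent.Lib.MP_1a91b9_nuW.ZD

open NumberField IsDedekindDomain Module
open Pool.Agent.Lib.MP_1a91b9_nuT.S4 (val_integral)

universe u

section
variable {N M : Type*} [Field N] [NumberField N] [Field M] [NumberField M] [Algebra N M]

/-- the different is prime to the places which are not ramified -/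
theorem not_diff (w : HeightOneSpectrum (𝓞 M))
    (h : ¬ Pool.Agent.Lib.MP_1a91b9_nuG.Ram M (w.under (𝓞 N))) :
    ¬ differentIdeal (𝓞 N) (𝓞 M) ≤ w.asIdeal := by
  intro hle
  have hle' : (w.under (𝓞 N)).asIdeal.map (algebraMap (𝓞 N) (𝓞 M)) ≤ w.asIdeal :=
    Ideal.map_le_iff_le_comap.2 le_rfl
  obtain ⟨J, hJ⟩ := Ideal.dvd_iff_le.2 hle'
  have hmax : (w.under (𝓞 N)).asIdeal.IsMaximal := (w.under (𝓞 N)).isMaximal
  have hPm : w.asIdeal.IsMaximal := w.isMaximal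
  have hfin : Finite (𝓞 N ⧸ (w.under (𝓞 N)).asIdeal) :=
    Ring.HasFiniteQuotients.finiteQuotient (w.under (𝓞 N)).ne_bot
  refine not_dvd_differentIdeal_of_isCoprime (𝓞 N) w.asIdeal J ?_ hJ.symm
    (Ideal.dvd_iff_le.2 hle)
  rw [Ideal.isCoprime_iff_sup_eq]
  by_contra hne
  have h3 := hPm.eq_of_le hne le_sup_left
  have h4 : J ≤ w.asIdeal := by
    rw [h3]
    exact le_sup_right
  apply h
  refine ⟨w, ?_⟩
  rw [hJ, sq]
  exact Ideal.mul_mono_right h4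

/-- an ideal which is not contained in the places above `ℓ` is prime to `ℓ` -/
theorem cop_of_places {I : Ideal (𝓞 M)} {ℓ : ℕ}
    (h : ∀ w : HeightOneSpectrum (𝓞 M), (ℓ : 𝓞 M) ∈ w.asIdeal → ¬ I ≤ w.asIdeal) (hℓ : ℓ ≠ 0) :
    IsCoprime I (Ideal.span {(ℓ : 𝓞 M)}) := by
  rw [Ideal.isCoprime_iff_sup_eq]
  by_contra hne
  obtain ⟨P, hP, hle⟩ := Ideal.exists_le_maximal _ hne
  have hℓP : (ℓ : 𝓞 M) ∈ P := hle (Ideal.mem_sup_right (Ideal.mem_span_singleton_self _))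
  have hP0 : P ≠ ⊥ := by
    rintro rfl
    rw [Ideal.mem_bot] at hℓP
    exact hℓ (by exact_mod_cast hℓP)
  exact h ⟨P, hP.isPrime, hP0⟩ hℓP (le_sup_left.trans hle)

/-- the different is prime to `ℓ` -/
theorem diff_cop {ℓ : ℕ} (hℓ : ℓ ≠ 0)
    (h : ∀ v : HeightOneSpectrum (𝓞 N), (ℓ : 𝓞 N) ∈ v.asIdeal →
      ¬ Pool.Agent.Lib.MP_1a91b9_nuG.Ram M v) :
    IsCoprime (differentIdeal (𝓞 N) (𝓞 M)) (Ideal.span {(ℓ : 𝓞 M)}) := by
  refine cop_of_places (fun w hw => not_diff w (h _ ?_)) hℓ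
  change algebraMap (𝓞 N) (𝓞 M) (ℓ : 𝓞 N) ∈ w.asIdeal
  rw [map_natCast]
  exact hw

end

variable [Pool.Agent.Lib.MP_1a91b9_nuT.CD]

open Pool.Agent.Lib.MP_1a91b9_nuT
open Pool.Agent.Lib.MP_1a91b9_nuT.S4 (nK nK_congr nK_one relNorm_span)

section
variable {N M : Type u} [Field N] [NumberField N] [Field M] [NumberField M] [Algebra N M]
  [Algebra K N] [Algebra K M] [IsScalarTower K N M]

/-- the norm of an ideal prime to `ℓ` is prime to `ℓ` -/
theorem norm_cop {I : Ideal (𝓞 M)} {ℓ : ℕ} (h : IsCoprime I (Ideal.span {(ℓ : 𝓞 M)}))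
    {e : 𝓞 K} (he : Ideal.relNorm (𝓞 K) I = Ideal.span {e}) : IsCoprime e (ℓ : 𝓞 K) := by
  obtain ⟨x, hx, y, hy, hxy⟩ := Ideal.isCoprime_iff_exists.1 h
  rw [Ideal.mem_span_singleton] at hy
  have h1 : (ℓ : 𝓞 K) ∣ nK x - nK (1 : 𝓞 M) := by
    refine nK_congr (ℓ : 𝓞 K) x 1 ?_
    rw [map_natCast, ← hxy, sub_add_cancel_left, dvd_neg]
    exact hy
  rw [nK_one] at h1
  have h2 : e ∣ nK x := by
    rw [← Ideal.mem_span_singleton, ← he, ← Ideal.span_singleton_le_iff_mem, ← relNorm_span]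
    exact Ideal.relNorm_mono (𝓞 K) ((Ideal.span_singleton_le_iff_mem _).2 hx)
  obtain ⟨a, ha⟩ := h1
  obtain ⟨b, hb⟩ := h2
  exact ⟨b, -a, by linear_combination ha - hb⟩

/-- the tower formula -/
theorem relNorm_diff : Ideal.relNorm (𝓞 K) (differentIdeal (𝓞 K) (𝓞 M)) =
    Ideal.relNorm (𝓞 K) (differentIdeal (𝓞 N) (𝓞 M)) *
      Ideal.relNorm (𝓞 K) (differentIdeal (𝓞 K) (𝓞 N)) ^ finrank N M := by
  rw [differentIdeal_eq_differentIdeal_mul_differentIdeal (𝓞 K) (𝓞 N) (𝓞 M), map_mul]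
  congr 1
  rw [← Ideal.relNorm_relNorm (𝓞 K) (𝓞 N), Ideal.relNorm_algebraMap (𝓞 M), map_pow]
  congr 1
  exact (IsFractionRing.finrank_eq (𝓞 N) N (𝓞 M) M).symm

end

theorem val_embK_le (A : ValuationSubring ℂ) (e : 𝓞 K) : A.valuation (embK (e : K)) ≤ 1 := by
  refine val_integral A ?_
  have h : IsIntegral ℤ ((e : 𝓞 K) : K) := RingOfIntegers.isIntegral_coe _
  exact h.map embK.toRingHom.toIntAlgHom

theorem val_of_cop {A : ValuationSubring ℂ} {ℓ : ℕ} (hA : (ℓ : ℂ)⁻¹ ∉ A) {e : 𝓞 K}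
    (he : IsCoprime e (ℓ : 𝓞 K)) : A.valuation (embK (e : K)) = 1 := by
  obtain ⟨a, b, hab⟩ := he
  refine le_antisymm (val_embK_le A e) ?_
  by_contra hlt
  rw [not_le] at hlt
  have h1 : embK (a : K) * embK (e : K) + embK (b : K) * (ℓ : ℂ) = 1 := by
    have h2 := congrArg (fun z : 𝓞 K => embK (algebraMap (𝓞 K) K z)) hab
    simp only [map_add, map_mul, map_natCast, map_one] at h2
    exact h2
  have h3 : A.valuation (embK (a : K) * embK (e : K) + embK (b : K) * (ℓ : ℂ)) < 1 := by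
    refine lt_of_le_of_lt (A.valuation.map_add _ _) (max_lt ?_ ?_)
    · rw [map_mul]
      exact lt_of_le_of_lt (mul_le_of_le_one_left' (val_embK_le A a)) hlt
    · rw [map_mul]
      exact lt_of_le_of_lt (mul_le_of_le_one_left' (val_embK_le A b))
        (Pool.Agent.Lib.MP_1a91b9_nuG.val_q A hA)
  rw [h1, map_one] at h3
  exact lt_irrefl _ h3

/-- The generator of the norm of the different. -/
theorem val_gen {N M : Type u} [Field N] [NumberField N] [Field M] [NumberField M] [Algebra N M]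
    [Algebra K N] [Algebra K M] [IsScalarTower K N M] {ℓ : ℕ} (hℓ : ℓ ≠ 0)
    (h : ∀ v : HeightOneSpectrum (𝓞 N), (ℓ : 𝓞 N) ∈ v.asIdeal →
      ¬ Pool.Agent.Lib.MP_1a91b9_nuG.Ram M v) {A : ValuationSubring ℂ} (hA : (ℓ : ℂ)⁻¹ ∉ A)
    {d d' : 𝓞 K} (hd : Ideal.relNorm (𝓞 K) (differentIdeal (𝓞 K) (𝓞 N)) = Ideal.span {d})
    (hd' : Ideal.relNorm (𝓞 K) (differentIdeal (𝓞 K) (𝓞 M)) = Ideal.span {d'}) :
    A.valuation (embK (d' : K)) = A.valuation (embK (d : K)) ^ finrank N M := by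
  obtain ⟨e, he⟩ := (IsPrincipalIdealRing.principal
    (Ideal.relNorm (𝓞 K) (differentIdeal (𝓞 N) (𝓞 M)))).principal
  have he' : Ideal.relNorm (𝓞 K) (differentIdeal (𝓞 N) (𝓞 M)) = Ideal.span {e} := he
  have h1 := relNorm_diff (N := N) (M := M)
  rw [hd, hd', he', Ideal.span_singleton_pow, Ideal.span_singleton_mul_span_singleton,
    Ideal.span_singleton_eq_span_singleton] at h1
  have hc := norm_cop (diff_cop (N := N) (M := M) hℓ h) he'
  obtain ⟨u, hu⟩ := h1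
  have hu1 : A.valuation (embK ((u : 𝓞 K) : K)) = 1 := by
    refine val_of_cop hA ⟨((u⁻¹ : (𝓞 K)ˣ) : 𝓞 K), 0, ?_⟩
    rw [Units.inv_mul, zero_mul, add_zero]
  have h2 := congrArg (fun z : 𝓞 K => A.valuation (embK (algebraMap (𝓞 K) K z))) hu
  simp only [map_mul, map_pow] at h2
  have h3 : A.valuation (embK (d' : K)) * A.valuation (embK ((u : 𝓞 K) : K)) =
    A.valuation (embK (e : K)) * A.valuation (embK (d : K)) ^ finrank N M := h2
  rw [hu1, mul_one, val_of_cop hA hc, one_mul] at h3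
  exact h3

end Pool.Agent.Lib.MP_1a91b9_nuW.ZD
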