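import Pool.Agent.Lib.MP_1a91b9_nuW.ZD.Defs
import Pool.Agent.Lib.MP_1a91b9_nuX.TC.Step

/-!
# Descent with a character in a cyclic extension of prime degree: the values normalised by the discriminant
-/

set_option autoImplicit false

namespace Pool.Agent.Lib.MP_1a91b9_nuW.ZD

variable [Pool.Agent.Lib.MP_1a91b9_nuT.CD]

open NumberField IsDedekindDomain Module Pool.Agent.Lib.MP_1a91b9_nt Pool.Agent.Lib.MP_1a91b9_nuT
open Pool.Agent.Lib.MP_1a91b9_nuT.S4 (Over Lf hasProd_Lf hasProd_over indC indC_of indC_of_not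
  indC_one indC_mul norm_indC_le entire_eq le_iff_not_coprime differentiable_euler val_integral RayEq)
open Pool.Agent.Lib.MP_1a91b9_nuG (up Ram)
open Pool.Agent.Lib.MP_1a91b9_nuX
open Pool.Agent.Lib.MP_1a91b9_nuX.AN
open Pool.Agent.Lib.MP_1a91b9_nuX.TC (RC ray_Lf one_Lf)
open Pool.Agent.Lib.MP_1a91b9_nuT.TG (RayData chr chr_of chr_of_not chr_one chr_mul norm_chr_le
  chr_zero RayData.chr_ray RayData.unr RayData.split isIntegral_chr one_of_prod one_cases)

universe u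

section
variable [HC] {F : Type u} [Field F] [NumberField F] [Algebra K F] {q : ℕ}

/-- the family of the partial series -/
theorem exists_familyZ (hq0 : q ≠ 0) (hV : ValZ q F) (m : Ideal (𝓞 F))
    (hm0 : m ≠ 0) (hm1 : m ≠ 1)
    (h3 : m ≤ Ideal.span {up HC.f F}) (h2 : IsCoprime m (Ideal.span {(q : 𝓞 F)})) :
    ∃ (ι : Type u) (_ : Fintype ι) (J : ι → Ideal (𝓞 F)) (G : ι → ℂ → ℂ),
      (∀ i, Differentiable ℂ (G i)) ∧ (∀ i, IsCoprime (J i) m) ∧
      (∀ i, NI q F (G i 1)) ∧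
      ∀ X : Ideal (𝓞 F) → ℂ, (∀ I, ¬ IsCoprime I m → X I = 0) → (∀ I, ‖X I‖ ≤ 1) →
        (∀ I J, RayEq m I J → X I = X J) → ∀ s : ℂ, 2 < s.re →
        Lf (fun I => psbC F I * X I) s = ∑ i, X (J i) * G i s := by
  have hc0 : Ideal.span {(q : 𝓞 F)} ≠ 0 := by
    rw [Ne, Ideal.zero_eq_bot, Ideal.span_singleton_eq_bot]
    exact_mod_cast hq0
  obtain ⟨ι, hι, b, t, J, k, h1, h4⟩ := unfold_L (Ideal.span {(q : 𝓞 F)}) m hc0 hm0 hm1 h3
  choose A hA using fun i => hV m (b i) (t i) hm0 h3 h2 (h1 i).1 (h1 i).2.1 (h1 i).2.2.1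
    (h1 i).2.2.2.1 (h1 i).2.2.2.2.1
  have hNb : ∀ i, (Ideal.absNorm (b i) : ℂ) ≠ 0 := by
    intro i
    have := Ideal.absNorm_ne_zero_iff_mem_nonZeroDivisors.mpr
      (mem_nonZeroDivisors_iff_ne_zero.mpr (h1 i).1)
    exact_mod_cast this
  refine ⟨ι, hι, J, fun i s => k i * (Ideal.absNorm (b i) : ℂ) ^ s * A i s, ?_, ?_, ?_, ?_⟩
  · intro i
    refine Differentiable.mul ?_ (hA i).1
    refine Differentiable.mul (differentiable_const _) ?_
    exact (differentiable_id).const_cpow (Or.inl (hNb i))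
  · intro i
    exact (h1 i).2.2.2.2.2.1
  · intro i W hW d hd
    have e : k i * (Ideal.absNorm (b i) : ℂ) ^ (1 : ℂ) * A i 1 / Om ^ (Module.finrank K F) =
        (k i * (Ideal.absNorm (b i) : ℂ)) * (A i 1 / Om ^ (Module.finrank K F)) := by
      rw [Complex.cpow_one]; ring
    change W.valuation (k i * (Ideal.absNorm (b i) : ℂ) ^ (1 : ℂ) * A i 1 /
      Om ^ (Module.finrank K F)) ^ 2 * _ ≤ 1
    rw [e, map_mul, mul_pow, mul_assoc]
    exact mul_le_one' (pow_le_one' (val_integral W (h1 i).2.2.2.2.2.2) 2) ((hA i).2.2 W hW d hd)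
  · intro X hX0 hX1 hXr s hs
    rw [h4 A (fun i R hR s hs => (hA i).2.1 R hR s hs) X hX0 hX1 hXr s hs]
    exact Finset.sum_congr rfl fun i _ => by ring

/-- integrality of a sum -/
theorem NI.sum {ι : Type*} [Fintype ι] {z : ι → ℂ} {x : ι → ℂ} (hz : ∀ i, NI q F (z i))
    (hx : ∀ i, IsIntegral ℤ (x i)) : NI q F (∑ i, x i * z i) := by
  intro W hW d hd
  obtain ⟨r, hr⟩ : ∃ r : ℂ, r ^ 2 = embK (d : K) := ⟨_, Complex.cpow_nat_inv_pow _ two_ne_zero⟩
  have h1 : ∀ y : ℂ, W.valuation (y / Om ^ finrank K F) ^ 2 * W.valuation (embK (d : K)) =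
      W.valuation (y / Om ^ finrank K F * r) ^ 2 := by
    intro y
    rw [← hr, map_pow, map_mul, mul_pow]
  have hle : ∀ i, W.valuation (z i / Om ^ finrank K F * r) ≤ 1 := by
    intro i
    have h2 := hz i W hW d hd
    rw [h1] at h2
    exact (pow_le_one_iff two_ne_zero).1 h2
  rw [h1]
  refine pow_le_one' ?_ 2
  have e : (∑ i, x i * z i) / Om ^ finrank K F * r =
      ∑ i, x i * (z i / Om ^ finrank K F * r) := by
    rw [Finset.sum_div, Finset.sum_mul]
    exact Finset.sum_congr rfl fun i _ => by ring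
  rw [e]
  refine Valuation.map_sum_le _ fun i _ => ?_
  rw [map_mul]
  exact mul_le_one' (val_integral W (hx i)) (hle i)

/-- removing the Euler factors at the places above `m` which are prime to `ℓ` and not anomalous -/
theorem unitZT_indC {m : Ideal (𝓞 F)}
    (hm0 : m ≠ 0) {ℓ : ℕ} (hℓ : ℓ.Prime) (hmq : IsCoprime m (Ideal.span {(ℓ : 𝓞 F)}))
    (ha : ∀ v : HeightOneSpectrum (𝓞 F), m ≤ v.asIdeal → up HC.f F ∉ v.asIdeal →
      IsCoprime (psi F v.asIdeal - 1) (ℓ : 𝓞 K))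
    (h : UnitZ ℓ F) : UnitZT ℓ F (indC m) := by
  have hfl : Fact ℓ.Prime := ⟨hℓ⟩
  have hBfin : {v : HeightOneSpectrum (𝓞 F) | m ≤ v.asIdeal}.Finite := by
    refine (Ideal.finite_factors hm0).subset fun v hv => ?_
    exact Ideal.dvd_iff_le.mpr hv
  obtain ⟨B, hBdef⟩ : ∃ B, B = hBfin.toFinset := ⟨_, rfl⟩
  have hB : ∀ v, v ∈ B ↔ m ≤ v.asIdeal := fun v => by
    rw [hBdef, Set.Finite.mem_toFinset]; rfl
  obtain ⟨L, hL, hL1, hne⟩ := h
  refine ⟨fun s => L s * ∏ v ∈ B, (1 - psbC F v.asIdeal *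
    (Ideal.absNorm v.asIdeal : ℂ) ^ (-s)), hL.mul (differentiable_euler B _), fun s hs => ?_,
    fun W hW d hd => ?_⟩
  · change L s * _ = _
    rw [Lf_indC m B hB s hs, hL1 s hs]
  · have hvℓ : ∀ v : HeightOneSpectrum (𝓞 F), m ≤ v.asIdeal → (ℓ : 𝓞 F) ∉ v.asIdeal := by
      intro v hv h1
      obtain ⟨a, ha, b, hb, hab⟩ := Ideal.isCoprime_iff_exists.1 hmq
      apply v.isPrime.ne_top
      rw [Ideal.eq_top_iff_one, ← hab]
      exact v.asIdeal.add_mem (hv ha) ((Ideal.span_singleton_le_iff_mem _).2 h1 hb)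
    have hE : W.valuation (∏ v ∈ B, (1 - psbC F v.asIdeal *
        (Ideal.absNorm v.asIdeal : ℂ) ^ (-(1 : ℂ)))) = 1 := by
      rw [map_prod]
      refine Finset.prod_eq_one fun v hv => ?_
      have hv' := (hB v).1 hv
      by_cases h3 : up HC.f F ∈ v.asIdeal
      · rw [psbC_bad v h3, zero_mul, sub_zero, map_one]
      · exact val_euler W hW v h3 (hvℓ v hv') (ha v hv' h3)
    change W.valuation (L 1 * (∏ v ∈ B, (1 - psbC F v.asIdeal *
      (Ideal.absNorm v.asIdeal : ℂ) ^ (-(1 : ℂ)))) / Om ^ (Module.finrank K F)) ^ 2 * _ = 1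
    rw [← div_mul_eq_mul_div, map_mul, hE, mul_one]
    exact hne W hW d hd

end

section
variable {F F' : Type u} [Field F] [NumberField F] [Field F'] [NumberField F'] [Algebra F F']
  [Algebra K F] [Algebra K F'] [IsScalarTower K F F'] [HC]

theorem unitZT_one [IsGalois F F'] (hL : Module.finrank F F' = 1)
    {m : Ideal (𝓞 F)} {c : Ideal (𝓞 F) → ℂ} (hc : RC m c) {c' : Ideal (𝓞 F') → ℂ}
    {m' : Ideal (𝓞 F')} (hcm : RC m' c')
    (hc' : ∀ (v : HeightOneSpectrum (𝓞 F)) (w : Over F' v),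
      c' w.1.asIdeal = c v.asIdeal ^ w.1.asIdeal.inertiaDeg (𝓞 F)) {q : ℕ} (hq0 : q ≠ 0)
    (hur : ∀ v : HeightOneSpectrum (𝓞 F), (q : 𝓞 F) ∈ v.asIdeal → ¬ Ram F' v)
    (h : UnitZT q F' c') : UnitZT q F c := by
  obtain ⟨L, h1, h2, h3⟩ := h
  refine ⟨L, h1, fun s hs => by rw [h2 s hs, one_Lf hL hc hcm hc' s hs], fun W hW d hd => ?_⟩
  obtain ⟨d', hd'⟩ := exists_dg F'
  have h4 := h3 W hW d' hd'
  rw [← Module.finrank_mul_finrank K F F', hL, mul_one, val_gen hq0 hur hW hd hd', hL,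
    pow_one] at h4
  exact h4

/-- **Descent with a character, the unit property.** -/
theorem unitZT_desc {p : ℕ} [hp : Fact p.Prime] [IsGalois F F'] (hL : Module.finrank F F' = p)
    {m : Ideal (𝓞 F)} (hm0 : m ≠ 0) (hm1 : m ≠ 1) (hm3 : m ≤ Ideal.span {up HC.f F})
    {x : HeightOneSpectrum (𝓞 F) → ZMod p} (hx : RayData p F' m x) {q : ℕ} (hq0 : q ≠ 0)
    (hmq : IsCoprime m (Ideal.span {(q : 𝓞 F)})) (hV : ValZ q F)
    (hur : ∀ v : HeightOneSpectrum (𝓞 F), (q : 𝓞 F) ∈ v.asIdeal → ¬ Ram F' v)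
    {c : Ideal (𝓞 F) → ℂ} (hc : RC m c) {c' : Ideal (𝓞 F') → ℂ}
    {m' : Ideal (𝓞 F')} (hcm : RC m' c')
    (hc' : ∀ (v : HeightOneSpectrum (𝓞 F)) (w : Over F' v),
      c' w.1.asIdeal = c v.asIdeal ^ w.1.asIdeal.inertiaDeg (𝓞 F))
    (hg : UnitZT q F' c') : UnitZT q F c := by
  classical
  obtain ⟨ι, hι, J, G, hG, hJ, hGW, hfam⟩ := exists_familyZ hq0 hV m hm0 hm1 hm3 hmq
  obtain ⟨L', hLd', hL1', hne⟩ := hg
  let X : ZMod p → Ideal (𝓞 F) → ℂ := fun j I => c I * chr x m j I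
  let G1 : ZMod p → ℂ → ℂ := fun j s => ∑ i, X j (J i) * G i s
  have hG1d : ∀ j, Differentiable ℂ (G1 j) := fun j =>
    Differentiable.fun_sum fun i _ => (differentiable_const _).mul (hG i)
  have hG1L : ∀ j, ∀ s : ℂ, 2 < s.re → Lf (fun I => psbC F I * X j I) s = G1 j s := by
    intro j s hs
    refine hfam (X j) (fun I hI => ?_) (fun I => ?_) (fun I J' hIJ => ?_) s hs
    · change c I * _ = 0
      rw [hc.out I hI, zero_mul]
    · change ‖c I * chr x m j I‖ ≤ 1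
      rw [norm_mul]
      exact mul_le_one₀ (hc.le I) (norm_nonneg _) (norm_chr_le x m j I)
    · change c I * chr x m j I = c J' * chr x m j J'
      rw [hc.ray I J' hIJ, hx.chr_ray hm0 hm1 j I J' hIJ]
  have id2 : L' = fun s => ∏ j : ZMod p, G1 j s := by
    refine entire_eq hLd' (Differentiable.fun_finsetProd fun j _ => hG1d j) fun s hs => ?_
    rw [hL1' s hs, ray_Lf hL hm1 hx hc hcm hc' s hs]
    exact Finset.prod_congr rfl fun j _ => hG1L j s hs
  refine ⟨G1 0, hG1d 0, fun s hs => ?_, fun W hW d hd => ?_⟩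
  · rw [← hG1L 0 s hs]
    congr 1
    funext I
    change psbC F I * (c I * chr x m 0 I) = _
    rw [chr_zero]
    by_cases hI : IsCoprime I m
    · rw [indC_of hI, mul_one]
    · rw [indC_of_not hI, hc.out I hI, mul_zero]
  · have hj : ∀ j : ZMod p, W.valuation (G1 j 1 / Om ^ (Module.finrank K F)) ^ 2 *
        W.valuation (embK (d : K)) ≤ 1 := by
      intro j
      exact NI.sum hGW (fun i => (hc.int _).mul (isIntegral_chr x m j _)) W hW d hd
    have hprod : ∏ j : ZMod p, (W.valuation (G1 j 1 / Om ^ (Module.finrank K F)) ^ 2 *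
        W.valuation (embK (d : K))) = 1 := by
      have h1 : ∏ j : ZMod p, (G1 j 1 / Om ^ (Module.finrank K F)) =
          L' 1 / Om ^ (Module.finrank K F') := by
        rw [Finset.prod_div_distrib, Finset.prod_const, Finset.card_univ, ZMod.card,
          ← pow_mul, ← Module.finrank_mul_finrank K F F', hL, id2]
      obtain ⟨d', hd'⟩ := exists_dg F'
      have h2 := hne W hW d' hd'
      rw [← h1, val_gen hq0 hur hW hd hd', hL, map_prod, ← Finset.prod_pow] at h2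
      rw [Finset.prod_mul_distrib, Finset.prod_const, Finset.card_univ, ZMod.card]
      exact h2
    exact one_of_prod _ hj hprod 0

end

end Pool.Agent.Lib.MP_1a91b9_nuW.ZD
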